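import Mathlib

set_option autoImplicit false

/-!
# An infinite-dimensional simple noncommutative Jordan algebra with `([x,y],y,y) = 0`

For a field `K` of characteristic not two the seven-dimensional (split) color algebra
`K ⊕ K³ ⊕ K³` with

`(a, u, v) (a', u', v') = (a a' + u·v' + v·u', a u' + a' u + v × v', a v' + a' v - 2 u × u')`

is flexible, simple, satisfies the Jordan identity and `([x,y],y,y) = 0`, and it is neither
alternative nor commutative. If `K` is an infinite extension of `F` (we take `K = F(t)`) it is an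
infinite-dimensional algebra over `F`.
-/

noncomputable section

namespace Pool.Agent.Results.MP_52e257_al.ColorAlgebra

/-- noncommutative Jordan algebra: flexible and `(x²,y,x) = 0` -/
def IsNCJordan (A : Type) [NonUnitalNonAssocRing A] : Prop :=
  (∀ x y : A, (x * y) * x = x * (y * x)) ∧ ∀ x y : A, ((x * x) * y) * x = (x * x) * (y * x)

/-- the identity `([x,y],y,y) = 0` -/
def CommIdentity (A : Type) [NonUnitalNonAssocRing A] : Prop :=
  ∀ x y : A, ((x * y - y * x) * y) * y = (x * y - y * x) * (y * y)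

/-- alternative algebra: `(x,x,y) = 0 = (y,x,x)` -/
def IsAlternative (A : Type) [NonUnitalNonAssocRing A] : Prop :=
  ∀ x y : A, (x * x) * y = x * (x * y) ∧ (y * x) * x = y * (x * x)

/-- Jordan algebra: commutative and `(x²,y,x) = 0` -/
def IsJordan (A : Type) [NonUnitalNonAssocRing A] : Prop :=
  (∀ x y : A, x * y = y * x) ∧ ∀ x y : A, ((x * x) * y) * x = (x * x) * (y * x)

/-- simple ring: `A² ≠ 0` and the only two-sided ideals (additive subgroups which are closed under
multiplication by arbitrary elements from both sides) are `0` and `A`; in particular the only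
two-sided ideals of the `F`-algebra `A` are `0` and `A` for every base field `F` -/
def IsSimple (A : Type) [NonUnitalNonAssocRing A] : Prop :=
  (∃ x y : A, x * y ≠ 0) ∧
    ∀ I : AddSubgroup A, (∀ a ∈ I, ∀ x : A, x * a ∈ I ∧ a * x ∈ I) → I = ⊥ ∨ I = ⊤

/-- the underlying space of the split color algebra -/
@[ext] structure Col (K : Type) where
  a : K
  u1 : K
  u2 : K
  u3 : K
  v1 : K
  v2 : K
  v3 : K

namespace Col

variable {K : Type} [Field K]

instance : Zero (Col K) := ⟨⟨0, 0, 0, 0, 0, 0, 0⟩⟩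
instance : Add (Col K) := ⟨fun x y => ⟨x.a + y.a, x.u1 + y.u1, x.u2 + y.u2, x.u3 + y.u3,
  x.v1 + y.v1, x.v2 + y.v2, x.v3 + y.v3⟩⟩
instance : Neg (Col K) := ⟨fun x => ⟨-x.a, -x.u1, -x.u2, -x.u3, -x.v1, -x.v2, -x.v3⟩⟩

/-- the product of the color algebra -/
instance : Mul (Col K) := ⟨fun x y =>
  ⟨x.a * y.a + (x.u1 * y.v1 + x.u2 * y.v2 + x.u3 * y.v3) +
      (x.v1 * y.u1 + x.v2 * y.u2 + x.v3 * y.u3),
    x.a * y.u1 + y.a * x.u1 + (x.v2 * y.v3 - x.v3 * y.v2),
    x.a * y.u2 + y.a * x.u2 + (x.v3 * y.v1 - x.v1 * y.v3),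
    x.a * y.u3 + y.a * x.u3 + (x.v1 * y.v2 - x.v2 * y.v1),
    x.a * y.v1 + y.a * x.v1 - 2 * (x.u2 * y.u3 - x.u3 * y.u2),
    x.a * y.v2 + y.a * x.v2 - 2 * (x.u3 * y.u1 - x.u1 * y.u3),
    x.a * y.v3 + y.a * x.v3 - 2 * (x.u1 * y.u2 - x.u2 * y.u1)⟩⟩

@[simp] lemma zero_def : (0 : Col K) = ⟨0, 0, 0, 0, 0, 0, 0⟩ := rfl
lemma add_def (x y : Col K) : x + y = ⟨x.a + y.a, x.u1 + y.u1, x.u2 + y.u2, x.u3 + y.u3,
  x.v1 + y.v1, x.v2 + y.v2, x.v3 + y.v3⟩ := rfl
lemma neg_def (x : Col K) : -x = ⟨-x.a, -x.u1, -x.u2, -x.u3, -x.v1, -x.v2, -x.v3⟩ := rfl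
lemma mul_def (x y : Col K) : x * y =
  ⟨x.a * y.a + (x.u1 * y.v1 + x.u2 * y.v2 + x.u3 * y.v3) +
      (x.v1 * y.u1 + x.v2 * y.u2 + x.v3 * y.u3),
    x.a * y.u1 + y.a * x.u1 + (x.v2 * y.v3 - x.v3 * y.v2),
    x.a * y.u2 + y.a * x.u2 + (x.v3 * y.v1 - x.v1 * y.v3),
    x.a * y.u3 + y.a * x.u3 + (x.v1 * y.v2 - x.v2 * y.v1),
    x.a * y.v1 + y.a * x.v1 - 2 * (x.u2 * y.u3 - x.u3 * y.u2),
    x.a * y.v2 + y.a * x.v2 - 2 * (x.u3 * y.u1 - x.u1 * y.u3),
    x.a * y.v3 + y.a * x.v3 - 2 * (x.u1 * y.u2 - x.u2 * y.u1)⟩ := rfl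

instance : NonUnitalNonAssocRing (Col K) where
  add_assoc x y z := by simp only [add_def, add_assoc]
  zero_add x := by simp only [add_def, zero_def, zero_add]
  add_zero x := by simp only [add_def, zero_def, add_zero]
  nsmul := nsmulRec
  zsmul := zsmulRec
  neg_add_cancel x := by simp only [add_def, neg_def, neg_add_cancel, zero_def]
  add_comm x y := by simp only [add_def, add_comm]
  left_distrib x y z := by
    simp only [add_def, mul_def]
    ext <;> simp only <;> ring
  right_distrib x y z := by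
    simp only [add_def, mul_def]
    ext <;> simp only <;> ring
  zero_mul x := by
    simp only [zero_def, mul_def]
    ext <;> simp only <;> ring
  mul_zero x := by
    simp only [zero_def, mul_def]
    ext <;> simp only <;> ring

lemma sub_def (x y : Col K) : x - y = ⟨x.a - y.a, x.u1 - y.u1, x.u2 - y.u2, x.u3 - y.u3,
  x.v1 - y.v1, x.v2 - y.v2, x.v3 - y.v3⟩ := by
  rw [sub_eq_add_neg, add_def, neg_def]
  simp only [← sub_eq_add_neg]

section module
variable {F : Type} [Field F] [Algebra F K]

instance : SMul F (Col K) := ⟨fun c x => ⟨c • x.a, c • x.u1, c • x.u2, c • x.u3,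
  c • x.v1, c • x.v2, c • x.v3⟩⟩

lemma smul_def (c : F) (x : Col K) : c • x = ⟨c • x.a, c • x.u1, c • x.u2, c • x.u3,
  c • x.v1, c • x.v2, c • x.v3⟩ := rfl

instance : Module F (Col K) where
  one_smul x := by simp only [smul_def, one_smul]
  mul_smul c d x := by simp only [smul_def, mul_smul]
  smul_zero c := by simp only [smul_def, zero_def, smul_zero]
  smul_add c x y := by simp only [smul_def, add_def, smul_add]
  add_smul c d x := by simp only [smul_def, add_def, add_smul]
  zero_smul x := by simp only [smul_def, zero_def, zero_smul]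

instance : IsScalarTower F (Col K) (Col K) where
  smul_assoc c x y := by
    simp only [smul_eq_mul, smul_def, mul_def, Algebra.smul_def]
    ext <;> simp only <;> ring

instance : SMulCommClass F (Col K) (Col K) where
  smul_comm c x y := by
    simp only [smul_eq_mul, smul_def, mul_def, Algebra.smul_def]
    ext <;> simp only <;> ring

/-- the first coordinate is linear and onto -/
def proj : Col K →ₗ[F] K where
  toFun x := x.a
  map_add' x y := rfl
  map_smul' c x := rfl

end module

lemma flexible (x y : Col K) : (x * y) * x = x * (y * x) := by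
  simp only [mul_def]
  ext <;> simp only <;> ring

lemma jordan (x y : Col K) : ((x * x) * y) * x = (x * x) * (y * x) := by
  simp only [mul_def]
  ext <;> simp only <;> ring

lemma commIdentity (x y : Col K) :
    ((x * y - y * x) * y) * y = (x * y - y * x) * (y * y) := by
  simp only [mul_def, sub_def]
  ext <;> simp only <;> ring

lemma not_alternative :
    ¬ ∀ x y : Col K, (x * x) * y = x * (x * y) ∧ (y * x) * x = y * (x * x) := by
  intro h
  have h1 := (h ⟨0, 1, 0, 0, 1, 0, 0⟩ ⟨0, 1, 0, 0, 0, 0, 0⟩).1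
  simp only [mul_def] at h1
  have h3 := congrArg Col.v1 h1
  simp at h3

lemma not_comm (h2 : (2 : K) ≠ 0) : ¬ ∀ x y : Col K, x * y = y * x := by
  intro h
  have := h ⟨0, 0, 0, 0, 1, 0, 0⟩ ⟨0, 0, 0, 0, 0, 1, 0⟩
  simp only [mul_def] at this
  have h3 := congrArg Col.u3 this
  simp at h3
  apply h2
  linear_combination h3

/-- a nonzero scalar generates everything -/
lemma ideal_of_scalar {I : AddSubgroup (Col K)} (hI : ∀ a ∈ I, ∀ x : Col K, x * a ∈ I ∧ a * x ∈ I)
    {c : K} (hc : c ≠ 0) (h : (⟨c, 0, 0, 0, 0, 0, 0⟩ : Col K) ∈ I) : I = ⊤ := by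
  rw [eq_top_iff]
  intro x _
  have := (hI _ h ⟨c⁻¹ * x.a, c⁻¹ * x.u1, c⁻¹ * x.u2, c⁻¹ * x.u3, c⁻¹ * x.v1, c⁻¹ * x.v2,
    c⁻¹ * x.v3⟩).2
  convert this using 1
  simp only [mul_def]
  ext <;> simp only <;> field_simp <;> ring

/-- an element `(0, u, 0)` of an ideal -/
lemma ideal_of_u {I : AddSubgroup (Col K)} (hI : ∀ a ∈ I, ∀ x : Col K, x * a ∈ I ∧ a * x ∈ I)
    {p q r : K} (hc : p ≠ 0 ∨ q ≠ 0 ∨ r ≠ 0) (h : (⟨0, p, q, r, 0, 0, 0⟩ : Col K) ∈ I) :
    I = ⊤ := by
  rcases hc with hc | hc | hc
  · apply ideal_of_scalar hI hc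
    have := (hI _ h ⟨0, 0, 0, 0, 1, 0, 0⟩).2
    convert this using 1
    simp only [mul_def]
    ext <;> simp
  · apply ideal_of_scalar hI hc
    have := (hI _ h ⟨0, 0, 0, 0, 0, 1, 0⟩).2
    convert this using 1
    simp only [mul_def]
    ext <;> simp
  · apply ideal_of_scalar hI hc
    have := (hI _ h ⟨0, 0, 0, 0, 0, 0, 1⟩).2
    convert this using 1
    simp only [mul_def]
    ext <;> simp

/-- an element `(0, 0, v)` of an ideal -/
lemma ideal_of_v {I : AddSubgroup (Col K)} (hI : ∀ a ∈ I, ∀ x : Col K, x * a ∈ I ∧ a * x ∈ I)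
    {p q r : K} (hc : p ≠ 0 ∨ q ≠ 0 ∨ r ≠ 0) (h : (⟨0, 0, 0, 0, p, q, r⟩ : Col K) ∈ I) :
    I = ⊤ := by
  rcases hc with hc | hc | hc
  · apply ideal_of_scalar hI hc
    have := (hI _ h ⟨0, 1, 0, 0, 0, 0, 0⟩).2
    convert this using 1
    simp only [mul_def]
    ext <;> simp
  · apply ideal_of_scalar hI hc
    have := (hI _ h ⟨0, 0, 1, 0, 0, 0, 0⟩).2
    convert this using 1
    simp only [mul_def]
    ext <;> simp
  · apply ideal_of_scalar hI hc
    have := (hI _ h ⟨0, 0, 0, 1, 0, 0, 0⟩).2
    convert this using 1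
    simp only [mul_def]
    ext <;> simp

lemma comm_mem {I : AddSubgroup (Col K)} (hI : ∀ a ∈ I, ∀ x : Col K, x * a ∈ I ∧ a * x ∈ I)
    {a : Col K} (ha : a ∈ I) (x : Col K) : a * x - x * a ∈ I :=
  I.sub_mem (hI a ha x).2 (hI a ha x).1

lemma simple (h2 : (2 : K) ≠ 0) : IsSimple (Col K) := by
  refine ⟨⟨⟨1, 0, 0, 0, 0, 0, 0⟩, ⟨1, 0, 0, 0, 0, 0, 0⟩, ?_⟩, ?_⟩
  · intro h
    have h1 := congrArg Col.a h
    simp [mul_def] at h1
  · intro I hI
    by_cases hb : I = ⊥
    · exact Or.inl hb
    · right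
      obtain ⟨x, hx, hx0⟩ : ∃ x ∈ I, x ≠ 0 := by
        by_contra hcon
        push Not at hcon
        exact hb ((AddSubgroup.eq_bot_iff_forall I).2 hcon)
      by_cases hv : x.v1 ≠ 0 ∨ x.v2 ≠ 0 ∨ x.v3 ≠ 0
      · rcases hv with hv | hv | hv
        · have := comm_mem hI hx ⟨0, 0, 0, 0, 0, 1, 0⟩
          rw [mul_def, mul_def, sub_def] at this
          refine ideal_of_u hI (p := -2 * x.v3) (q := 0) (r := 2 * x.v1) ?_ ?_
          · right; right; exact mul_ne_zero h2 hv
          · convert this using 1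
            ext <;> simp only <;> ring
        · have := comm_mem hI hx ⟨0, 0, 0, 0, 1, 0, 0⟩
          rw [mul_def, mul_def, sub_def] at this
          refine ideal_of_u hI (p := 0) (q := 2 * x.v3) (r := -2 * x.v2) ?_ ?_
          · right; right; exact mul_ne_zero (neg_ne_zero.2 h2) hv
          · convert this using 1
            ext <;> simp only <;> ring
        · have := comm_mem hI hx ⟨0, 0, 0, 0, 1, 0, 0⟩
          rw [mul_def, mul_def, sub_def] at this
          refine ideal_of_u hI (p := 0) (q := 2 * x.v3) (r := -2 * x.v2) ?_ ?_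
          · right; left; exact mul_ne_zero h2 hv
          · convert this using 1
            ext <;> simp only <;> ring
      · push Not at hv
        obtain ⟨v1, v2, v3⟩ := hv
        by_cases hu : x.u1 ≠ 0 ∨ x.u2 ≠ 0 ∨ x.u3 ≠ 0
        · have h4 : (4 : K) ≠ 0 := by
            have : (4 : K) = 2 * 2 := by norm_num
            rw [this]; exact mul_ne_zero h2 h2
          rcases hu with hv | hv | hv
          · have := comm_mem hI hx ⟨0, 0, 1, 0, 0, 0, 0⟩
            rw [mul_def, mul_def, sub_def] at this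
            refine ideal_of_v hI (p := 4 * x.u3) (q := 0) (r := -4 * x.u1) ?_ ?_
            · right; right; exact mul_ne_zero (neg_ne_zero.2 h4) hv
            · convert this using 1
              ext <;> simp only <;> ring
          · have := comm_mem hI hx ⟨0, 1, 0, 0, 0, 0, 0⟩
            rw [mul_def, mul_def, sub_def] at this
            refine ideal_of_v hI (p := 0) (q := -4 * x.u3) (r := 4 * x.u2) ?_ ?_
            · right; right; exact mul_ne_zero h4 hv
            · convert this using 1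
              ext <;> simp only <;> ring
          · have := comm_mem hI hx ⟨0, 1, 0, 0, 0, 0, 0⟩
            rw [mul_def, mul_def, sub_def] at this
            refine ideal_of_v hI (p := 0) (q := -4 * x.u3) (r := 4 * x.u2) ?_ ?_
            · right; left; exact mul_ne_zero (neg_ne_zero.2 h4) hv
            · convert this using 1
              ext <;> simp only <;> ring
        · push Not at hu
          obtain ⟨u1, u2, u3⟩ := hu
          have ha : x.a ≠ 0 := by
            intro ha
            apply hx0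
            rw [zero_def]
            ext <;> simp [ha, u1, u2, u3, v1, v2, v3]
          apply ideal_of_scalar hI ha
          convert hx using 1
          ext <;> simp [u1, u2, u3, v1, v2, v3]

lemma not_finite {F : Type} [Field F] [Algebra F K] (h : ¬ Module.Finite F K) :
    ¬ Module.Finite F (Col K) := by
  intro hf
  apply h
  exact Module.Finite.of_surjective (proj (F := F) (K := K))
    (fun c => ⟨⟨c, 0, 0, 0, 0, 0, 0⟩, rfl⟩)

end Col

/-- **Answer.** For every field `F` of characteristic not two there is a simple, infinite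
dimensional noncommutative Jordan algebra over `F` which satisfies `([x,y],y,y) = 0` and is neither
alternative nor a Jordan algebra. -/
theorem result (F : Type) [Field F] (h2 : (2 : F) ≠ 0) :
    ∃ (A : Type) (_ : NonUnitalNonAssocRing A) (_ : Module F A) (_ : IsScalarTower F A A)
      (_ : SMulCommClass F A A), IsSimple A ∧ ¬ Module.Finite F A ∧ IsNCJordan A ∧
      CommIdentity A ∧ ¬ IsAlternative A ∧ ¬ IsJordan A := by
  have h2' : (2 : RatFunc F) ≠ 0 := by
    intro h
    apply h2
    have h3 : algebraMap F (RatFunc F) 2 = 0 := by rw [map_ofNat]; exact h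
    exact (map_eq_zero _).1 h3
  refine ⟨Col (RatFunc F), inferInstance, inferInstance, inferInstance, inferInstance,
    Col.simple h2', ?_, ⟨Col.flexible, Col.jordan⟩, Col.commIdentity, Col.not_alternative,
    fun h => Col.not_comm h2' h.1⟩
  apply Col.not_finite
  intro hf
  have := Algebra.IsAlgebraic.of_finite F (RatFunc F)
  exact RatFunc.transcendental_X (this.isAlgebraic _)

end Pool.Agent.Results.MP_52e257_al.ColorAlgebra
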